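import Pool.Agent.Lib.MP_a337a7_an.RenormU

set_option autoImplicit false

namespace Pool.Agent.Results.MP_a337a7_an.LatticeRenorm

universe u

variable {𝕜 : Type} [RCLike 𝕜] {X : Type u} [NormedAddCommGroup X] [NormedSpace 𝕜 X]

/-- `A` is a greedy set of `x`: the coefficients on `A` dominate all others in modulus. -/
def IsGreedySet (b : SchauderBasis 𝕜 X) (x : X) (A : Finset ℕ) : Prop :=
  ∀ n ∈ A, ∀ k ∉ A, ‖b.coord k x‖ ≤ ‖b.coord n x‖

/-- The best `m`-term approximation error of `x` measured by `ν`. -/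
noncomputable def sigma (b : SchauderBasis 𝕜 X) (ν : X → ℝ) (m : ℕ) (x : X) : ℝ :=
  sInf {r : ℝ | ∃ (B : Finset ℕ) (a : ℕ → 𝕜), B.card ≤ m ∧ r = ν (x - ∑ n ∈ B, a n • b.basis n)}

/-- The basis is `C`-greedy with respect to `ν`. -/
def IsCGreedy (b : SchauderBasis 𝕜 X) (ν : X → ℝ) (C : ℝ) : Prop :=
  ∀ (x : X) (A : Finset ℕ), IsGreedySet b x A →
    ν (x - ∑ n ∈ A, b.coord n x • b.basis n) ≤ C * sigma b ν A.card x

/-- Every `C`-greedy basis is `(1+ε)`-greedy and lattice `1`-unconditional for an equivalent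
norm, with a distortion depending only on `C` and `ε`. -/
theorem result (b : SchauderBasis 𝕜 X) (C : ℝ) (hC1 : 1 ≤ C)
    (hC : IsCGreedy b (fun x => ‖x‖) C) (ε : ℝ) (hε : 0 < ε) :
    ∃ ν : X → ℝ, (∀ x y : X, ν (x + y) ≤ ν x + ν y) ∧ (∀ (a : 𝕜) (x : X), ν (a • x) = ‖a‖ * ν x) ∧
      (∀ x : X, ‖x‖ ≤ ν x ∧ ν x ≤ 4 * C * (1 + 64 * C ^ 2 * (1 + ε) / ε ^ 2) * ‖x‖) ∧
      (∀ x y : X, (∀ n, ‖b.coord n x‖ ≤ ‖b.coord n y‖) → ν x ≤ ν y) ∧
      IsCGreedy b ν (1 + ε) := by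
  have hb : ∀ i j : ℕ, b.coord i (b.basis j) = if i = j then 1 else 0 := fun i j => by
    rw [b.ortho]
    by_cases h : i = j
    · subst h
      simp
    · simp [h]
  have hs : ∀ x : X, Filter.Tendsto (fun N : ℕ => ∑ n ∈ Finset.range N, b.coord n x • b.basis n)
      Filter.atTop (nhds x) := fun x => by
    simpa only [SchauderBasis.proj_apply] using b.tendsto_proj x
  obtain ⟨N, h1, h2, h3⟩ := Pool.Agent.Lib.MP_a337a7_an.U.renorm 𝕜 X b.basis b.coord hb hs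
    (C := C) (fun x A B a hA hBA => by
      refine (hC x A hA).trans (mul_le_mul_of_nonneg_left ?_ (by linarith))
      refine csInf_le ⟨0, ?_⟩ ⟨B, a, hBA, rfl⟩
      rintro r ⟨B', a', -, rfl⟩
      exact norm_nonneg _) ε hε
  set D : ℝ := 1 + 64 * C ^ 2 * (1 + ε) / ε ^ 2 with hD
  have hD0 : 0 < D := by positivity
  refine ⟨fun x => D * N x, fun x y => ?_, fun a x => ?_, fun x => ⟨(h1 x).1, ?_⟩,
    fun x y hxy => mul_le_mul_of_nonneg_left (h2 x y hxy) hD0.le, fun x A hA => ?_⟩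
  · have := mul_le_mul_of_nonneg_left (map_add_le_add N x y) hD0.le
    linarith
  · dsimp only
    rw [map_smul_eq_mul]
    ring
  · have := mul_le_mul_of_nonneg_left (h1 x).2 hD0.le
    linarith
  · rw [mul_comm (1 + ε), ← div_le_iff₀ (by positivity)]
    refine le_csInf ⟨_, ∅, fun _ => 0, by simp, rfl⟩ ?_
    rintro r ⟨B, a, hB, rfl⟩
    have := mul_le_mul_of_nonneg_left (h3 x A B a hA hB) hD0.le
    rw [div_le_iff₀ (by positivity)]
    linarith

end Pool.Agent.Results.MP_a337a7_an.LatticeRenorm
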